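import Mathlib
import Pool.Agent.H.MP_fbf57d_al.B
open Matrix
namespace Pool.Agent.Results.MP_fbf57d_al.Closed
open Pool.Agent.H.MP_fbf57d_al

variable {n : ℕ}

/-- local automorphisms of the algebra `K^n` with structure constants `c`, inside `GL n K` -/
def LocAut {K : Type} [Field K] (c : Fin n → Fin n → Fin n → K) : Set (GL (Fin n) K) :=
  {φ | ∀ x : Fin n → K, ∃ ψ : GL (Fin n) K,
    (∀ a b, ψ.1 *ᵥ mul c a b = mul c (ψ.1 *ᵥ a) (ψ.1 *ᵥ b)) ∧ φ.1 *ᵥ x = ψ.1 *ᵥ x}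

lemma cl {K : Type} [RCLike K] (c : Fin n → Fin n → Fin n → K) {φ : GL (Fin n) K}
    (h : φ ∈ closure (LocAut c)) (x : Fin n → K) :
    φ.1 *ᵥ x ∈ closure (orb (Aut c) x) ∧ x ∈ closure (orb (Aut c) (φ.1 *ᵥ x)) := by
  constructor
  · refine map_mem_closure (f := fun g : GL (Fin n) K => g.1 *ᵥ x)
      (Units.continuous_val.matrix_mulVec continuous_const) h fun g hg => ?_
    obtain ⟨ψ, h1, h2⟩ := hg x
    exact ⟨ψ, h1, h2.symm⟩
  · have := map_mem_closure (f := fun g : GL (Fin n) K => (g⁻¹).1 *ᵥ (φ.1 *ᵥ x))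
      (t := orb (Aut c) (φ.1 *ᵥ x))
      (Units.continuous_coe_inv.matrix_mulVec continuous_const) h fun g hg => by
        obtain ⟨ψ, h1, h2⟩ := hg ((g⁻¹).1 *ᵥ (φ.1 *ᵥ x))
        refine ⟨ψ⁻¹, (Aut c).inv_mem h1, ?_⟩
        rw [mulVec_mulVec _ g.1, g.mul_inv, one_mulVec] at h2
        conv_lhs => rw [h2]
        rw [mulVec_mulVec, ψ.inv_mul, one_mulVec]
    rwa [mulVec_mulVec, φ.inv_mul, one_mulVec] at this

theorem result (n : ℕ) :
    (∀ c : Fin n → Fin n → Fin n → ℝ, IsClosed (LocAut c)) ∧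
    (∀ c : Fin n → Fin n → Fin n → ℂ, IsClosed (LocAut c)) := by
  refine ⟨fun c => ?_, fun c => ?_⟩
  swap
  · refine isClosed_of_closure_subset fun φ h x => ?_
    obtain ⟨g, h1, h2⟩ := cplx c (cl c h x).1 (cl c h x).2
    exact ⟨g, h1, h2.symm⟩
  refine isClosed_of_closure_subset fun φ h x => ?_
  let c' : Fin n → Fin n → Fin n → ℂ := fun i j k => c i j k
  let ι : (Fin n → ℝ) → Fin n → ℂ := fun v i => v i
  let J : Matrix (Fin n) (Fin n) ℝ →+* Matrix (Fin n) (Fin n) ℂ := Complex.ofRealHom.mapMatrix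
  have hJ : Function.Injective J := fun a b h => by
    ext i j; simpa [J] using congrFun (congrFun h i) j
  have hv : ∀ g v, ι (g *ᵥ v) = J g *ᵥ ι v := fun g v => by
    ext; simp [ι, J, mulVec, dotProduct]
  have he : ∀ g, Eqn c g ↔ Eqn c' (J g) := fun g => by
    simp only [Eqn, J, c', RingHom.mapMatrix_apply, map_apply, Complex.ofRealHom_eq_coe]
    norm_cast
  have tr : ∀ u w, w ∈ closure (orb (Aut c) u) → ι w ∈ closure (orb (RAut c') (ι u)) := by
    intro u w hw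
    refine map_mem_closure (f := ι) (by fun_prop) hw ?_
    rintro _ ⟨g, hg, rfl⟩
    refine ⟨Units.map J.toMonoidHom g, ⟨(eqn_iff _ _).2 ((he _).1 ((eqn_iff _ _).1 hg)), ?_⟩,
      (hv _ _).symm⟩
    ext; simp [cj, J]
  obtain ⟨g, hg, e⟩ := real c' (fun i j k => Complex.conj_ofReal _)
    (by ext; simp [ι]) (tr _ _ (cl c h x).1) (tr _ _ (cl c h x).2)
  have re : ∀ m : Matrix (Fin n) (Fin n) ℂ, cj m = m → J (m.map Complex.re) = m := fun m hm => by
    ext i j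
    have := congrFun (congrFun hm i) j
    exact Complex.conj_eq_iff_re.1 this
  have r1 := re _ hg.2
  have r2 := re _ ((RAut c').inv_mem hg).2
  have r3 : g.1.map Complex.re * (g⁻¹).1.map Complex.re = 1 := hJ (by
    rw [map_mul, r1, r2, g.mul_inv, map_one])
  refine ⟨⟨_, _, r3, mul_eq_one_comm.1 r3⟩, (eqn_iff _ _).2 ((he _).2 ?_), ?_⟩
  · rw [r1]; exact (eqn_iff _ _).1 hg.1
  · have : ι (φ.1 *ᵥ x) = ι (g.1.map Complex.re *ᵥ x) := by rw [← e, hv, r1]
    ext i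
    exact Complex.ofReal_injective (congrFun this i)

end Pool.Agent.Results.MP_fbf57d_al.Closed
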